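import Pool.Agent.BEZ.Stmts
import Pool.Agent.NDR.Defs

/-!
# Squad BEZ: the interface statement `NDR.BEZStmt` from `BziStmt`
-/

set_option autoImplicit false

namespace Pool.Agent.BEZ.H74

open MvPolynomial Finset Pool.Agent.Helper30_Simp Pool.Agent.BEZ

open scoped Classical in
theorem to_ndr (h : BziStmt) : Pool.Agent.NDR.BEZStmt := by
  intro σ _ K _ _ F K₀ P hK hP hS hr n g heq
  refine h K σ F.support (fun a => F.coeff a) P K₀ hK
    (fun a ha => MvPolynomial.mem_support_iff.1 ha) (fun a ha j hj h0 => hP j hj a ha h0) ?_ ?_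
    n g ?_
  · intro u
    have h1 := hS u
    have h2 : F.support.filter (fun a => ∀ b ∈ F.support, wt u a ≤ wt u b) =
        Pool.Agent.NDR.fcz F.support u := by
      ext a
      simp only [Pool.Agent.NDR.fcz, Finset.mem_filter, wt]
    rw [h2]
    exact h1
  · intro K' hK'
    exact hr K' hK'
  · have h3 : Finset.univ \ P = Finset.univ.filter (fun i => i ∉ P) := by
      ext i
      simp
    rw [h3, ← Finset.prod_pow]
    refine heq.trans (Finset.sum_congr rfl fun k hk => ?_)
    refine congrArg (· * g k) (Finset.sum_congr rfl fun a ha => ?_)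
    have ha' := Finset.mem_filter.1 ha
    obtain ⟨h1, h2⟩ := hP k hk a ha'.1 ha'.2
    have h4 : a.erase k = offP P a := by
      ext i
      by_cases hi : i = k
      · rw [hi, Finsupp.erase_same, offP, Finsupp.filter_apply, if_neg]
        exact fun h => h (hK hk)
      · rw [Finsupp.erase_ne hi, offP, Finsupp.filter_apply]
        by_cases hiP : i ∈ P
        · rw [if_neg (fun h => h hiP)]
          exact h2 i hiP hi
        · rw [if_pos hiP]
    rw [h4]

end Pool.Agent.BEZ.H74
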