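import Pool.Agent.Helper77_BEZ.RDO
import Pool.Agent.Helper13_BEZ.HEN
import Pool.Agent.Helper16_BEZ.FEX
import Pool.Agent.Helper42_BEZ.PLC
import Pool.Agent.Helper27_BEZ.FZR
import Pool.Agent.Helper60_BEZ.BEZ
import Pool.Agent.Helper51_BEZ.BZI
import Pool.Agent.Helper74_BEZ.ToNDR

/-!
# Squad BEZ: assembly
-/

set_option autoImplicit false

namespace Pool.Agent.BEZ.H74

open Pool.Agent.BEZ

/-- no monomial lies in the ideal generated by a nondegenerate system with the Rado condition -/
theorem bezAll : BezStmt := H60.bez H13.hen (H27.fzr H77.rdo H13.hen H16.fex H42.plc)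

theorem bziAll : BziStmt := H51.bzi bezAll

/-- output of block B of squad NDR -/
theorem ndrBez : Pool.Agent.NDR.BEZStmt := to_ndr bziAll

end Pool.Agent.BEZ.H74
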